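import Pool.Agent.W845.DH.Stm

/-!
# Removing flexible vertices
-/

set_option autoImplicit false
open scoped Classical
open Finset

namespace Pool.Agent.W253.DH

open Pool.Agent.W845.DH

noncomputable section

variable {V : Type}

theorem od_mono (D : V → V → Prop) (v : V) {X Y : Finset V} (h : X ⊆ Y) : od D v X ≤ od D v Y :=
  card_le_card (filter_subset_filter _ h)

theorem idg_mono (D : V → V → Prop) (v : V) {X Y : Finset V} (h : X ⊆ Y) :
    idg D v X ≤ idg D v Y :=
  card_le_card (filter_subset_filter _ h)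

theorem od_sub (D : V → V → Prop) (v : V) {X Y : Finset V} (h : X ⊆ Y) :
    od D v Y + X.card ≤ od D v X + Y.card := by
  have h1 : Y.filter (fun w => D v w) ⊆ X.filter (fun w => D v w) ∪ (Y \ X) := by
    intro w hw
    rw [mem_filter] at hw
    by_cases hX : w ∈ X
    · exact mem_union_left _ (mem_filter.2 ⟨hX, hw.2⟩)
    · exact mem_union_right _ (mem_sdiff.2 ⟨hw.1, hX⟩)
  have h2 := (card_le_card h1).trans (card_union_le _ _)
  have h3 := card_sdiff_add_card_eq_card h
  unfold od
  omega

theorem idg_sub (D : V → V → Prop) (v : V) {X Y : Finset V} (h : X ⊆ Y) :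
    idg D v Y + X.card ≤ idg D v X + Y.card := by
  have h1 : Y.filter (fun w => D w v) ⊆ X.filter (fun w => D w v) ∪ (Y \ X) := by
    intro w hw
    rw [mem_filter] at hw
    by_cases hX : w ∈ X
    · exact mem_union_left _ (mem_filter.2 ⟨hX, hw.2⟩)
    · exact mem_union_right _ (mem_sdiff.2 ⟨hw.1, hX⟩)
  have h2 := (card_le_card h1).trans (card_union_le _ _)
  have h3 := card_sdiff_add_card_eq_card h
  unfold idg
  omega

theorem od_sub' (D : V → V → Prop) (v : V) {X Y : Finset V} (h : X ⊆ Y) :
    (od D v Y : ℝ) - ((Y.card : ℝ) - X.card) ≤ od D v X := by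
  have h1 : (od D v Y : ℝ) + X.card ≤ od D v X + Y.card := by exact_mod_cast od_sub D v h
  linarith

theorem idg_sub' (D : V → V → Prop) (v : V) {X Y : Finset V} (h : X ⊆ Y) :
    (idg D v Y : ℝ) - ((Y.card : ℝ) - X.card) ≤ idg D v X := by
  have h1 : (idg D v Y : ℝ) + X.card ≤ idg D v X + Y.card := by exact_mod_cast idg_sub D v h
  linarith

theorem mis_le1 [Fintype V] (D : V → V → Prop) {S S1 T T1 : Finset V} (hS : S1 ⊆ S)
    (_ : T1 ⊆ T) : mis D S1 T1ᶜ ≤ mis D S Tᶜ + Fintype.card V * (T \ T1).card := by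
  unfold mis
  have h1 : (S1 ×ˢ T1ᶜ).filter (fun e : V × V => ¬ D e.1 e.2) ⊆
      (S ×ˢ Tᶜ).filter (fun e : V × V => ¬ D e.1 e.2) ∪ univ ×ˢ (T \ T1) := by
    rintro ⟨x, y⟩ h
    rw [mem_filter, mem_product, mem_compl] at h
    obtain ⟨⟨hx, hy⟩, hd⟩ := h
    by_cases hyT : y ∈ T
    · exact mem_union_right _ (mem_product.2 ⟨mem_univ _, mem_sdiff.2 ⟨hyT, hy⟩⟩)
    · exact mem_union_left _ (mem_filter.2 ⟨mem_product.2 ⟨hS hx, mem_compl.2 hyT⟩, hd⟩)
  refine (card_le_card h1).trans ((card_union_le _ _).trans ?_)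
  rw [card_product, card_univ]

theorem mis_le2 [Fintype V] (D : V → V → Prop) {S S1 T T1 : Finset V} (_ : S1 ⊆ S)
    (hT : T1 ⊆ T) : mis D S1ᶜ T1 ≤ mis D Sᶜ T + Fintype.card V * (S \ S1).card := by
  unfold mis
  have h1 : (S1ᶜ ×ˢ T1).filter (fun e : V × V => ¬ D e.1 e.2) ⊆
      (Sᶜ ×ˢ T).filter (fun e : V × V => ¬ D e.1 e.2) ∪ (S \ S1) ×ˢ univ := by
    rintro ⟨x, y⟩ h
    rw [mem_filter, mem_product, mem_compl] at h
    obtain ⟨⟨hx, hy⟩, hd⟩ := h
    by_cases hxS : x ∈ S
    · exact mem_union_right _ (mem_product.2 ⟨mem_sdiff.2 ⟨hxS, hx⟩, mem_univ _⟩)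
    · exact mem_union_left _ (mem_filter.2 ⟨mem_product.2 ⟨mem_compl.2 hxS, hT hy⟩, hd⟩)
  refine (card_le_card h1).trans ((card_union_le _ _).trans ?_)
  rw [card_product, card_univ, mul_comm (Fintype.card V)]

/-- the family of the pairs obtained by removing flexible vertices -/
def Fam [Fintype V] (D : V → V → Prop) (S T : Finset V) (p : Finset V × Finset V) : Prop :=
  p.1 ⊆ S ∧ p.2 ⊆ T ∧ Fintype.card V ≤ p.1.card + p.2.card ∧
  (∀ v ∈ S, v ∉ p.1 → (Fintype.card V : ℝ) / 128 - ((T.card : ℝ) - p.2.card) ≤ od D v p.2) ∧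
  (∀ v ∈ T, v ∉ p.2 → (Fintype.card V : ℝ) / 128 - ((S.card : ℝ) - p.1.card) ≤ idg D v p.1)

theorem st2_big [Fintype V] (γ : ℝ) (D : V → V → Prop) (S T : Finset V)
    (hγ : 0 < γ) (hγ2 : γ ≤ 1 / 20000) (hP : Part (1 / 10) (40 * γ) D S T)
    (hS : |(S.card : ℝ) - (Fintype.card V : ℝ) / 2| ≤ 20 * γ * (Fintype.card V : ℝ))
    (hT : |(T.card : ℝ) - (Fintype.card V : ℝ) / 2| ≤ 20 * γ * (Fintype.card V : ℝ))
    (hn : Fintype.card V ≤ S.card + T.card) : ∃ S' T' : Finset V, Str γ D S' T' := by
  set n : ℝ := (Fintype.card V : ℝ) with hndef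
  have hn0 : 0 ≤ n := Nat.cast_nonneg _
  have hγn : 40 * γ * n ≤ n / 500 := by nlinarith
  have hγn0 : 0 ≤ γ * n := by positivity
  have hST : (S.card : ℝ) + T.card ≤ n + 40 * γ * n := by
    have h1 := (abs_le.1 hS).2
    have h2 := (abs_le.1 hT).2
    linarith
  obtain ⟨hP1, hP2, hP3, hP4, hP5⟩ := hP
  -- a minimal pair
  have hfam : (univ.filter (Fam D S T)).Nonempty := by
    refine ⟨(S, T), mem_filter.2 ⟨mem_univ _, Subset.refl _, Subset.refl _, hn, ?_, ?_⟩⟩
    · intro v hv hv'
      exact absurd hv hv'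
    · intro v hv hv'
      exact absurd hv hv'
  obtain ⟨⟨S1, T1⟩, hmem, hmin⟩ :=
    exists_min_image (univ.filter (Fam D S T)) (fun p => p.1.card + p.2.card) hfam
  obtain ⟨-, hS1, hT1, hn1, hf1, hf2⟩ := mem_filter.1 hmem
  simp only at hS1 hT1 hn1 hf1 hf2 hmin
  have hcS : (S1.card : ℝ) ≤ S.card := by exact_mod_cast card_le_card hS1
  have hcT : (T1.card : ℝ) ≤ T.card := by exact_mod_cast card_le_card hT1
  have hn1' : n ≤ (S1.card : ℝ) + T1.card := by rw [hndef]; exact_mod_cast hn1
  refine ⟨S1, T1, ⟨?_, ?_, ?_, ?_, ?_⟩, ?_, ?_, hn1, ?_, ?_⟩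
  · intro v hv
    have h1 := hP1 v (hS1 hv)
    have h2 : (od D v Tᶜ : ℝ) ≤ od D v T1ᶜ := by
      exact_mod_cast od_mono D v (compl_subset_compl.2 hT1)
    linarith
  · intro v hv
    by_cases hvS : v ∈ S
    · have h1 := hf1 v hvS hv
      linarith
    · have h1 := hP2 v hvS
      have h2 := od_sub' D v hT1
      linarith
  · intro v hv
    have h1 := hP3 v (hT1 hv)
    have h2 : (idg D v Sᶜ : ℝ) ≤ idg D v S1ᶜ := by
      exact_mod_cast idg_mono D v (compl_subset_compl.2 hS1)
    linarith
  · intro v hv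
    by_cases hvT : v ∈ T
    · have h1 := hf2 v hvT hv
      linarith
    · have h1 := hP4 v hvT
      have h2 := idg_sub' D v hS1
      linarith
  · have h1 : (mis D S1 T1ᶜ : ℝ) ≤ mis D S Tᶜ + n * (T \ T1).card := by
      rw [hndef]; exact_mod_cast mis_le1 D hS1 hT1
    have h2 : (mis D S1ᶜ T1 : ℝ) ≤ mis D Sᶜ T + n * (S \ S1).card := by
      rw [hndef]; exact_mod_cast mis_le2 D hS1 hT1
    have h3 : ((T \ T1).card : ℝ) + T1.card = T.card := by
      exact_mod_cast card_sdiff_add_card_eq_card hT1
    have h4 : ((S \ S1).card : ℝ) + S1.card = S.card := by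
      exact_mod_cast card_sdiff_add_card_eq_card hS1
    have h5 : ((T \ T1).card : ℝ) + (S \ S1).card ≤ 40 * γ * n := by linarith
    have h6 := mul_le_mul_of_nonneg_left h5 hn0
    calc (mis D S1 T1ᶜ : ℝ) + mis D S1ᶜ T1
        ≤ (mis D S Tᶜ + mis D Sᶜ T) + n * ((T \ T1).card + (S \ S1).card) := by linarith
      _ ≤ 40 * γ * n ^ 2 + n * (40 * γ * n) := by linarith
      _ = 80 * γ * n ^ 2 := by ring
  · have h1 := abs_le.1 hS
    rw [abs_le]
    constructor <;> linarith
  · have h1 := abs_le.1 hT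
    rw [abs_le]
    constructor <;> linarith
  · linarith
  · by_cases heq : S1.card + T1.card = Fintype.card V
    · exact Or.inl heq
    · right
      have hlt : Fintype.card V < S1.card + T1.card := lt_of_le_of_ne hn1 (Ne.symm heq)
      constructor
      · intro v hv
        by_contra hcon
        push Not at hcon
        have hcard := card_erase_add_one hv
        have hcard' : ((S1.erase v).card : ℝ) + 1 = S1.card := by exact_mod_cast hcard
        have hnew : Fam D S T (S1.erase v, T1) := by
          refine ⟨(erase_subset _ _).trans hS1, hT1, ?_, ?_, ?_⟩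
          · show Fintype.card V ≤ (S1.erase v).card + T1.card
            omega
          · intro u hu hu'
            show n / 128 - ((T.card : ℝ) - T1.card) ≤ od D u T1
            by_cases huv : u = v
            · subst huv
              linarith
            · exact hf1 u hu fun h => hu' (mem_erase.2 ⟨huv, h⟩)
          · intro u hu hu'
            show n / 128 - ((S.card : ℝ) - (S1.erase v).card) ≤ idg D u (S1.erase v)
            have h1 := hf2 u hu hu'
            have h2 := idg_sub' D u (erase_subset v S1)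
            linarith
        have h1 := hmin (S1.erase v, T1) (mem_filter.2 ⟨mem_univ _, hnew⟩)
        simp only at h1
        omega
      · intro v hv
        by_contra hcon
        push Not at hcon
        have hcard := card_erase_add_one hv
        have hcard' : ((T1.erase v).card : ℝ) + 1 = T1.card := by exact_mod_cast hcard
        have hnew : Fam D S T (S1, T1.erase v) := by
          refine ⟨hS1, (erase_subset _ _).trans hT1, ?_, ?_, ?_⟩
          · show Fintype.card V ≤ S1.card + (T1.erase v).card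
            omega
          · intro u hu hu'
            show n / 128 - ((T.card : ℝ) - (T1.erase v).card) ≤ od D u (T1.erase v)
            have h1 := hf1 u hu hu'
            have h2 := od_sub' D u (erase_subset v T1)
            linarith
          · intro u hu hu'
            show n / 128 - ((S.card : ℝ) - S1.card) ≤ idg D u S1
            by_cases huv : u = v
            · subst huv
              linarith
            · exact hf2 u hu fun h => hu' (mem_erase.2 ⟨huv, h⟩)
        have h1 := hmin (S1, T1.erase v) (mem_filter.2 ⟨mem_univ _, hnew⟩)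
        simp only at h1
        omega

theorem st2 : S_ST2 := by
  intro V _ γ D S T hγ hγ2 hP hS hT
  rcases le_or_gt (Fintype.card V) (S.card + T.card) with hn | hn
  · exact st2_big γ D S T hγ hγ2 hP hS hT hn
  · obtain ⟨hP1, hP2, hP3, hP4, hP5⟩ := hP
    have hcS : (Sᶜ).card + S.card = Fintype.card V := by
      have := card_add_card_compl S
      omega
    have hcT : (Tᶜ).card + T.card = Fintype.card V := by
      have := card_add_card_compl T
      omega
    have hcS' : ((Sᶜ).card : ℝ) + S.card = Fintype.card V := by exact_mod_cast hcS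
    have hcT' : ((Tᶜ).card : ℝ) + T.card = Fintype.card V := by exact_mod_cast hcT
    refine st2_big γ D Sᶜ Tᶜ hγ hγ2 ⟨?_, ?_, ?_, ?_, ?_⟩ ?_ ?_ (by omega)
    · intro v hv
      rw [compl_compl]
      exact hP2 v (mem_compl.1 hv)
    · intro v hv
      exact hP1 v (by
        by_contra h
        exact hv (mem_compl.2 h))
    · intro v hv
      rw [compl_compl]
      exact hP4 v (mem_compl.1 hv)
    · intro v hv
      exact hP3 v (by
        by_contra h
        exact hv (mem_compl.2 h))
    · rw [compl_compl, compl_compl, add_comm]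
      exact hP5
    · rw [abs_le] at hS ⊢
      constructor <;> linarith [hS.1, hS.2]
    · rw [abs_le] at hT ⊢
      constructor <;> linarith [hT.1, hT.2]

end

end Pool.Agent.W253.DH
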